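import Mathlib
import Pool.Agent.H.MP_0995d8_gt.A

open Set Filter Topology

namespace Pool.Agent.Results.MP_0995d8_gt.NotImage

/-- precompact group -/
def Precompact (G : Type) [CommGroup G] [TopologicalSpace G] : Prop :=
  ∀ U ∈ 𝓝 (1 : G), ∃ F : Set G, F.Finite ∧ ∀ g, ∃ f ∈ F, ∃ u ∈ U, f * u = g

/-- Pontryagin reflexive group -/
def Reflexive (G : Type) [CommGroup G] [TopologicalSpace G] : Prop :=
  ∃ e : G ≃ₜ* PontryaginDual (PontryaginDual G), ∀ g χ, e g χ = χ g

theorem result : ∃ (H : Type) (_ : CommGroup H) (_ : TopologicalSpace H),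
    IsTopologicalGroup H ∧ T2Space H ∧ Precompact H ∧
    ∀ (G : Type) [CommGroup G] [TopologicalSpace G] [IsTopologicalGroup G] [T2Space G],
      Precompact G → Reflexive G → ∀ f : G →* H, Continuous f → ¬ Function.Surjective f :=
  ⟨Multiplicative Pool.Agent.H.MP_0995d8_gt.V, inferInstance, inferInstance, inferInstance,
    inferInstanceAs (T2Space Pool.Agent.H.MP_0995d8_gt.V), Pool.Agent.H.MP_0995d8_gt.pre,
    fun G _ _ _ _ hG ⟨e, he⟩ f hf =>
      Pool.Agent.H.MP_0995d8_gt.main G hG e e.continuous he f hf⟩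

end Pool.Agent.Results.MP_0995d8_gt.NotImage
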